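import Pool.Agent.helper52.OC.SpecA

/-! Project oc:, row OR1. -/

set_option autoImplicit false

namespace OC

theorem OR1 (hB : OB1_stmt) : OR1_stmt := by
  intro n G _ N₀ t y A F Xh Wh c c' hp N hN hx
  obtain ⟨hnor, P, hP⟩ := hN
  obtain ⟨-, h2, h3, h4⟩ := hB G N P hnor hP
  -- step 1
  have s1 : ∀ m : ℕ, y ((m : ℤ) * (N₀ : ℤ)) 0 ∈ N := by
    intro m
    induction m with
    | zero => simpa using hx
    | succ m ih =>
      have h : y ((m : ℤ) * (N₀ : ℤ) + (N₀ : ℤ)) 0 = cj (y ((m : ℤ) * (N₀ : ℤ)) 0) t := hp.per _ _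
      have e : (((m + 1 : ℕ) : ℤ) * (N₀ : ℤ)) = (m : ℤ) * (N₀ : ℤ) + (N₀ : ℤ) := by
        push_cast; ring
      rw [e, h]
      unfold cj
      have := hnor.conj_mem _ ih t⁻¹
      simpa using this
  have s2 : ∀ (j : ℤ) (τ : Fin 3), ∃ k : ℤ, j < k ∧ y k 0 ∈ N := by
    intro j _
    refine ⟨((j.toNat + 1 : ℕ) : ℤ) * (N₀ : ℤ), ?_, s1 _⟩
    have hN1 : (1 : ℤ) ≤ (N₀ : ℤ) := by exact_mod_cast hp.hN
    have h5 : j ≤ (j.toNat : ℤ) := Int.self_le_toNat j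
    have h6 : ((j.toNat + 1 : ℕ) : ℤ) ≤ ((j.toNat + 1 : ℕ) : ℤ) * (N₀ : ℤ) :=
      le_mul_of_one_le_right (by positivity) hN1
    push_cast at h6 ⊢
    linarith
  -- step 2/3
  have s3 : ∀ (j : ℤ) (τ : Fin 3), ∀ b ∈ A, b⁻¹ * cj b (y j τ) ∈ N := by
    intro j τ b hb
    obtain ⟨k, hk, hz⟩ := s2 j τ
    have ha : y j τ * cj (y j τ) (y k 0) ∈ A := hp.P1 j k τ hk
    apply h3 b (y j τ) 2 (by norm_num)
    set a := y j τ * cj (y j τ) (y k 0) with hadef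
    have hab : a * b = b * a := hp.comA a ha b hb
    have hn : a⁻¹ * (y j τ) ^ (2 : ℤ) ∈ N := by
      have e : a⁻¹ * (y j τ) ^ (2 : ℤ) = (y k 0)⁻¹ * ((y j τ)⁻¹ * y k 0 * y j τ) := by
        rw [hadef]; unfold cj; group
      rw [e]
      refine N.mul_mem (N.inv_mem hz) ?_
      have := hnor.conj_mem _ hz (y j τ)⁻¹
      simpa using this
    have e2 : b⁻¹ * cj b ((y j τ) ^ (2 : ℤ)) =
        (b⁻¹ * (a⁻¹ * (y j τ) ^ (2 : ℤ))⁻¹ * b) * (a⁻¹ * (y j τ) ^ (2 : ℤ)) := by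
      unfold cj
      have e3 : a * b * a⁻¹ = b := by rw [hab]; group
      have e4 : a⁻¹ * b * a = b := by
        rw [mul_assoc, ← hab]; group
      calc b⁻¹ * (((y j τ) ^ (2 : ℤ))⁻¹ * b * (y j τ) ^ (2 : ℤ))
          = b⁻¹ * ((y j τ) ^ (2 : ℤ))⁻¹ * b * (y j τ) ^ (2 : ℤ) := by group
        _ = b⁻¹ * ((y j τ) ^ (2 : ℤ))⁻¹ * (a * b * a⁻¹) * (y j τ) ^ (2 : ℤ) := by rw [e3]
        _ = (b⁻¹ * (a⁻¹ * (y j τ) ^ (2 : ℤ))⁻¹ * b) * (a⁻¹ * (y j τ) ^ (2 : ℤ)) := by group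
    rw [e2]
    refine N.mul_mem ?_ hn
    have := hnor.conj_mem _ (N.inv_mem hn) b⁻¹
    simpa using this
  -- step 4
  intro j τ
  apply h4 (y j τ) (y (j + 1) 0)
  have hv : y j τ * cj (y j τ) (y (j + 1) 0) ∈ A := hp.P1 j (j + 1) τ (by omega)
  have hP2 := hp.P2 j τ
  set v := y j τ * cj (y j τ) (y (j + 1) 0) with hvdef
  apply h2 v 2 (by norm_num)
  have q1 := s3 (j + 1) 1 v hv
  have q0 := s3 (j + 1) 0 v hv
  have e : v ^ (2 : ℤ) = (v⁻¹ * cj v (y (j + 1) 0))⁻¹ * (v⁻¹ * cj v (y (j + 1) 1)) := by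
    rw [hP2]
    have : v ^ (2 : ℤ) = v ^ 2 := by norm_cast
    rw [this]
    group
  rw [e]
  exact N.mul_mem (N.inv_mem q0) q1

end OC
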